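import Pool.Agent.P8H67.TU.MainR
import Pool.Agent.P8H97.TU.Cent
import Pool.Agent.P8H97.TU.Log
import Pool.Agent.P8H5.TU.Flow
import Pool.Agent.P8H1.TU.Satu
import Pool.Agent.P8H96.TU.Latt
import Pool.Agent.P8H96.TU.Triv
import Pool.Agent.P8H43.TU.Prop
import Pool.Agent.P8H43.TU.Rank
import Pool.Agent.P8H55.TU.Locu
import Pool.Agent.P8H29.TU.Gind
import Pool.Agent.P8H4.TU.Prg
import Pool.Agent.P8H57.TU.Str
import Pool.Agent.P8H57.TU.Pri
import Pool.Agent.P8H52.TU.Field
import Pool.Agent.P8H52.TU.Im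
import Pool.Agent.P8H88.TU.Avg
import Pool.Agent.P8H80.TU.Logr
import Pool.Agent.P8H93.TU.Rsp
import Pool.Agent.P8H84.TU.Flowr
import Pool.Agent.P8H67.TU.Bzz

set_option autoImplicit false

open Set
open Pool.Agent.P8H67.TD (AffD)

namespace Pool.Agent.Results.MP_f22a19_gt.NormalSubgroups

/-- the standard simplex of dimension `k` -/
abbrev Simplex (k : ℕ) : Type := stdSimplex ℝ (Fin (k + 1))

/-- real singular chains of degree `k` of the space `M` -/
abbrev Chain (k : ℕ) (M : Type) [TopologicalSpace M] : Type := C(Simplex k, M) →₀ ℝ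

/-- the inclusion of the face opposite to the vertex `i` -/
noncomputable def face {k : ℕ} (i : Fin (k + 2)) : C(Simplex k, Simplex (k + 1)) :=
  ⟨stdSimplex.map i.succAbove, stdSimplex.continuous_map _⟩

/-- the boundary of singular chains -/
noncomputable def bdry {M : Type} [TopologicalSpace M] (k : ℕ) : Chain (k + 1) M →ₗ[ℝ] Chain k M :=
  Finsupp.linearCombination ℝ fun σ =>
    ∑ i : Fin (k + 2), ((-1 : ℝ) ^ (i : ℕ)) • Finsupp.single (σ.comp (face i)) 1

/-- the `ℓ¹`-norm of a singular chain: the sum of the absolute values of its coefficients -/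
noncomputable def norm1 {M : Type} [TopologicalSpace M] {k : ℕ} (c : Chain k M) : ℝ :=
  ∑ σ ∈ c.support, |c σ|

/-- The `ℓ¹`-seminorm of the homology class of a cycle `z`: the infimum of the norms of the
homologous cycles. For a fundamental cycle of a closed oriented manifold this is the simplicial
volume. -/
noncomputable def seminorm1 {k : ℕ} {M : Type} [TopologicalSpace M] (z : Chain (k + 1) M) : ℝ :=
  ⨅ c : Chain (k + 2) M, norm1 (z + bdry (k + 1) c)

/-- The `ℓ¹`-seminorm of all real homology classes of `M = Γ \ X` of degree larger than `m` is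
zero. -/
def VanishingAbove (X Γ : Type) [TopologicalSpace X] [Group Γ] [MulAction Γ X] (m : ℕ) : Prop :=
  ∀ k : ℕ, m ≤ k → ∀ z : Chain (k + 1) (MulAction.orbitRel.Quotient Γ X), bdry k z = 0 →
    seminorm1 z = 0

/-- the linear part of the affine map `g` is unipotent -/
def IsUnipotent {E : Type} [NormedAddCommGroup E] [NormedSpace ℝ E] (g : E ≃ᵃ[ℝ] E) : Prop :=
  IsNilpotent ((g.linear : E →ₗ[ℝ] E) - LinearMap.id)

/-- all complex eigenvalues of the linear part of `g` are positive real numbers: the space is the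
sum of its generalized eigenspaces for positive real numbers -/
def HasPositiveEigenvalues {E : Type} [NormedAddCommGroup E] [NormedSpace ℝ E]
    (g : E ≃ᵃ[ℝ] E) : Prop :=
  ⨆ μ : {μ : ℝ // 0 < μ}, Module.End.maxGenEigenspace (g.linear : E →ₗ[ℝ] E) μ = ⊤

/-- The group `N` acts by unipotent affine maps, or it is solvable and acts by affine maps with
positive real eigenvalues. -/
def IsSplitSubgroup {Γ E : Type} [Group Γ] [NormedAddCommGroup E] [NormedSpace ℝ E]
    (hol : Γ →* (E ≃ᵃ[ℝ] E)) (N : Subgroup Γ) : Prop :=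
  (∀ ν ∈ N, IsUnipotent (hol ν)) ∨
    Group.IsSolvable N ∧ ∀ ν ∈ N, HasPositiveEigenvalues (hol ν)

/-- Let `M = Γ \ Ω` be a closed affine manifold (no condition on the volume, `M` is not assumed to
be aspherical) which is a quotient of an open subset `Ω` of the affine space `E` by a group `Γ`
acting freely: it is given by a cover `X` with its group `Γ`, holonomy `hol`, and injective
developing map `dev`, with image `Ω`. Let `n` be its dimension.

If `Γ` contains a normal subgroup `N ≠ 1` which acts by unipotent affine maps, or which is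
solvable and acts by affine maps with positive real eigenvalues, then the `ℓ¹`-seminorm of all
real homology classes of `M` of degree at least `n` is zero; in particular the simplicial volume
of `M` is zero. If moreover `N` is abelian and contains a free abelian group of rank `r`, then the
seminorm of all classes of degree larger than `n - r` is zero. -/
theorem result (X Γ E : Type) [NormedAddCommGroup E] [NormedSpace ℝ E] [FiniteDimensional ℝ E]
    [TopologicalSpace X] [T2Space X] [Nonempty X] [Group Γ] [MulAction Γ X] (dev : X → E)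
    (hol : Γ →* (E ≃ᵃ[ℝ] E)) (D : AffD X Γ E dev hol)
    (hfree : ∀ (γ : Γ) (x : X), γ • x = x → γ = 1) (hinj : Function.Injective dev)
    (N : Subgroup Γ) (hNn : N.Normal) (hN : N ≠ ⊥) (hs : IsSplitSubgroup hol N) :
    VanishingAbove X Γ (Module.finrank ℝ E - 1) ∧
    ((∀ a ∈ N, ∀ b ∈ N, a * b = b * a) → ∀ r : ℕ,
      (∃ f : Multiplicative (Fin r → ℤ) →* N, Function.Injective f) →
      VanishingAbove X Γ (Module.finrank ℝ E - r)) := by
  have hRED : Pool.Agent.P8H67.TU.S_RED := Pool.Agent.P8H88.TU.avg Pool.Agent.P8H57.TU.str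
    Pool.Agent.P8H57.TU.pri Pool.Agent.P8H52.TU.field Pool.Agent.P8H52.TU.im
  have hU : Pool.Agent.P8H67.TU.Flows hol (fun ν : Γ => IsUnipotent (hol ν)) :=
    fun N' hn hab hP => Pool.Agent.P8H5.TU.flow Pool.Agent.P8H97.TU.log E Γ hol N' hab hP
  have hR : Pool.Agent.P8H67.TU.Flows hol (fun ν : Γ => HasPositiveEigenvalues (hol ν)) :=
    fun N' hn hab hP => Pool.Agent.P8H84.TU.flowr Pool.Agent.P8H97.TU.log
      Pool.Agent.P8H80.TU.logr Pool.Agent.P8H93.TU.rsp E Γ hol N' hab hP
  have hcomm : ∀ P : Γ → Prop, Pool.Agent.P8H67.TU.Flows hol P → (∀ ν ∈ N, P ν) →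
      (∀ a ∈ N, ∀ b ∈ N, a * b = b * a) → ∀ r : ℕ,
        (∃ f : Multiplicative (Fin r → ℤ) →* N, Function.Injective f) →
        VanishingAbove X Γ (Module.finrank ℝ E - r) := fun P hP hNP hab r hr k hk z hz =>
    Pool.Agent.P8H67.TU.comm_rank Pool.Agent.P8H43.TU.rank Pool.Agent.P8H67.TU.BZ.bz
      Pool.Agent.P8H96.TU.latt Pool.Agent.P8H1.TU.satu Pool.Agent.P8H43.TU.prop
      Pool.Agent.P8H96.TU.triv Pool.Agent.P8H55.TU.locu Pool.Agent.P8H29.TU.gind
      Pool.Agent.P8H4.TU.prg hRED D hfree hinj P hP N hNn hN hab hNP r hr k (Or.inl (by omega)) z hz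
  rcases hs with huni | ⟨hsol, hpos⟩
  · refine ⟨fun k hk z hz => ?_, hcomm _ hU huni⟩
    exact Pool.Agent.P8H67.TU.uni_case Pool.Agent.P8H97.TU.cent Pool.Agent.P8H43.TU.rank
      Pool.Agent.P8H67.TU.BZ.bz Pool.Agent.P8H96.TU.latt Pool.Agent.P8H1.TU.satu
      Pool.Agent.P8H43.TU.prop Pool.Agent.P8H96.TU.triv Pool.Agent.P8H55.TU.locu
      Pool.Agent.P8H29.TU.gind Pool.Agent.P8H4.TU.prg hRED D hfree hinj _ hU N hNn hN huni huni k
      (by omega) z hz
  · refine ⟨fun k hk z hz => ?_, hcomm _ hR hpos⟩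
    exact Pool.Agent.P8H67.TU.solv_case Pool.Agent.P8H43.TU.rank
      Pool.Agent.P8H67.TU.BZ.bz Pool.Agent.P8H96.TU.latt Pool.Agent.P8H1.TU.satu
      Pool.Agent.P8H43.TU.prop Pool.Agent.P8H96.TU.triv Pool.Agent.P8H55.TU.locu
      Pool.Agent.P8H29.TU.gind Pool.Agent.P8H4.TU.prg hRED D hfree hinj _ hR N hNn hN hsol hpos k
      (by omega) z hz

end Pool.Agent.Results.MP_f22a19_gt.NormalSubgroups
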