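import Pool.Agent.P8H67.TT.Pla
import Pool.Agent.P8H67.TT.Tow
import Pool.Agent.P8H83.Form
import Pool.Agent.N520.SV.Fin3

set_option autoImplicit false

open Pool.Agent.W689.Mk Set

namespace Pool.Agent.Results.MP_f22a19_gt.TranslationTower

/-- the standard simplex of dimension `k` -/
abbrev Simplex (k : ℕ) : Type := stdSimplex ℝ (Fin (k + 1))

/-- real singular chains of degree `k` of the space `M` -/
abbrev Chain (k : ℕ) (M : Type) [TopologicalSpace M] : Type := C(Simplex k, M) →₀ ℝ

/-- the inclusion of the face opposite to the vertex `i` -/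
noncomputable def face {k : ℕ} (i : Fin (k + 2)) : C(Simplex k, Simplex (k + 1)) :=
  ⟨stdSimplex.map i.succAbove, stdSimplex.continuous_map _⟩

/-- the boundary of singular chains -/
noncomputable def bdry {M : Type} [TopologicalSpace M] (k : ℕ) : Chain (k + 1) M →ₗ[ℝ] Chain k M :=
  Finsupp.linearCombination ℝ fun σ =>
    ∑ i : Fin (k + 2), ((-1 : ℝ) ^ (i : ℕ)) • Finsupp.single (σ.comp (face i)) 1

/-- the `ℓ¹`-norm of a singular chain: the sum of the absolute values of its coefficients -/
noncomputable def norm1 {M : Type} [TopologicalSpace M] {k : ℕ} (c : Chain k M) : ℝ :=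
  ∑ σ ∈ c.support, |c σ|

/-- The `ℓ¹`-seminorm of the homology class of a cycle `z`: the infimum of the norms of the
homologous cycles. For a fundamental cycle of a closed oriented manifold this is the simplicial
volume. -/
noncomputable def seminorm1 {k : ℕ} {M : Type} [TopologicalSpace M] (z : Chain (k + 1) M) : ℝ :=
  ⨅ c : Chain (k + 2) M, norm1 (z + bdry (k + 1) c)

/-- a group with a solvable subgroup of finite index -/
def VirtSolvable (G : Type) [Group G] : Prop :=
  ∃ A : Subgroup G, A.FiniteIndex ∧ Group.IsSolvable A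

/-- The span of the vectors of the translations in the holonomy. -/
def translationSpan {Γ E : Type} [Group Γ] [NormedAddCommGroup E] [NormedSpace ℝ E]
    (hol : Γ →* (E ≃ᵃ[ℝ] E)) : Submodule ℝ E :=
  Submodule.span ℝ {v | ∃ γ, ∀ p, hol γ p = p + v}

/-- The structure of `M = Γ \ X` is complete, `Γ` is virtually solvable, and the `ℓ¹`-seminorm of
all real singular homology classes of `M` of positive degree is zero; in particular the simplicial
volume of `M` is zero. -/
def SolvableAndVanishing (X Γ E : Type) [TopologicalSpace X] [Group Γ] [MulAction Γ X]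
    [TopologicalSpace E] (dev : X → E) : Prop :=
  IsHomeomorph dev ∧ VirtSolvable Γ ∧
    ∀ (k : ℕ) (z : Chain (k + 1) (MulAction.orbitRel.Quotient Γ X)), bdry k z = 0 →
      seminorm1 z = 0

section
variable {Γ Q : Type} [Group Γ] [NormedAddCommGroup Q] [NormedSpace ℝ Q]

/-- The group `ρ(Γ)` of affine maps preserves the open set `U`, and `ρ(Γ) \ U` is a closed affine
manifold (or orbifold) with parallel volume, with holonomy group `ρ(Γ)` and developing map the
inclusion of `U`. -/
def IsClosedQuotient (U : Set Q) (ρ : Γ →* (Q ≃ᵃ[ℝ] Q)) : Prop :=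
  ∃ _ : MulAction ρ.range U, AffData U ρ.range Q Subtype.val ρ.range.subtype

/-- the linear part of the affine map `ρ γ` -/
def linPart (ρ : Γ →* (Q ≃ᵃ[ℝ] Q)) (γ : Γ) (v : Q) : Q := (ρ γ).linear v

/-- `ρ(Γ)` contains no translation but the identity. -/
def NoTranslations (ρ : Γ →* (Q ≃ᵃ[ℝ] Q)) : Prop :=
  ∀ γ, (∀ v, linPart ρ γ v = v) → ρ γ = 1

/-- For some `ε > 0`, if the linear part of `ρ γ` is at distance at most `ε` from the identity then
`ρ γ` is the identity. -/
def FaithfulDiscrete (ρ : Γ →* (Q ≃ᵃ[ℝ] Q)) : Prop :=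
  ∃ ε : ℝ, 0 < ε ∧ ∀ γ, (∀ v : Q, ‖linPart ρ γ v - v‖ ≤ ε * ‖v‖) → ρ γ = 1

/-- The linear maps `L γ`, for `γ` in a subgroup of finite index, are trivial modulo a plane. -/
def TrivialModPlane (L : Γ → Q → Q) : Prop :=
  ∃ H : Subgroup Γ, H.FiniteIndex ∧ ∃ W : Submodule ℝ Q, Module.finrank ℝ W = 2 ∧
    ∀ γ ∈ H, ∀ v : Q, L γ v - v ∈ W

/-- The linear maps `L γ`, for `γ` in a subgroup `H` of finite index, preserve a flag
`0 = S 0 ⊆ S 1 ⊆ … ⊆ S m = Q` and act on the quotients `S (i + 1) / S i` by uniformly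
quasi-conformal maps: up to one constant `C`, every `γ` in `H` multiplies the quotient norm by a
factor `c > 0`, which depends on `γ` and `i`. -/
def HasConformalFlag (L : Γ → Q → Q) : Prop :=
  ∃ H : Subgroup Γ, H.FiniteIndex ∧ ∃ (S : ℕ → Submodule ℝ Q) (m : ℕ),
    S 0 = ⊥ ∧ S m = ⊤ ∧ (∀ i < m, S i ≤ S (i + 1)) ∧
    (∀ i ≤ m, ∀ γ ∈ H, ∀ v ∈ S i, L γ v ∈ S i) ∧
    ∃ C : ℝ, ∀ i < m, ∀ γ ∈ H, ∃ c : ℝ, 0 < c ∧ ∀ v ∈ S (i + 1),
      (∃ w ∈ S i, ‖L γ v - w‖ ≤ C * c * ‖v‖) ∧ ∃ w ∈ S i, ‖L γ⁻¹ v - w‖ ≤ C * c⁻¹ * ‖v‖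

/-- No subgroup of finite index preserves a subspace other than `0` and `Q`. -/
def StronglyIrreducible (L : Γ → Q → Q) : Prop :=
  ∀ H : Subgroup Γ, H.FiniteIndex → ∀ W : Submodule ℝ Q,
    (∀ γ ∈ H, ∀ v ∈ W, L γ v ∈ W) → W = ⊥ ∨ W = ⊤

/-- No subgroup of finite index preserves a nonzero quadratic form. -/
def NoQuadraticForm (L : Γ → Q → Q) : Prop :=
  ∀ H : Subgroup Γ, H.FiniteIndex → ∀ q : QuadraticForm ℝ Q,
    (∀ γ ∈ H, ∀ v : Q, q (L γ v) = q v) → q = 0

/-- a nonempty open convex cone without whole lines -/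
structure IsProperlyConvexCone (C : Set Q) : Prop where
  isOpen : IsOpen C
  convex : Convex ℝ C
  nonempty : C.Nonempty
  cone : ∀ t : ℝ, 0 < t → ∀ c ∈ C, t • c ∈ C
  no_line : ∀ c v : Q, (∀ t : ℝ, c + t • v ∈ C) → v = 0

/-- No subgroup of finite index preserves a properly convex open cone. -/
def NoProperlyConvexCone (L : Γ → Q → Q) : Prop :=
  ∀ H : Subgroup Γ, H.FiniteIndex → ∀ C : Set Q, IsProperlyConvexCone C →
    ¬ ∀ γ ∈ H, ∀ c ∈ C, L γ c ∈ C

/-- The linear part of the affine action `ρ` is strongly irreducible, faithful and discrete, and no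
subgroup of finite index preserves a nonzero quadratic form or a properly convex open cone. -/
def Exceptional (ρ : Γ →* (Q ≃ᵃ[ℝ] Q)) : Prop :=
  StronglyIrreducible (linPart ρ) ∧ FaithfulDiscrete ρ ∧ NoQuadraticForm (linPart ρ) ∧
    NoProperlyConvexCone (linPart ρ)

variable {X E : Type} [NormedAddCommGroup E] [NormedSpace ℝ E]

/-- The surjection `π` exhibits `(U, ρ)` as a quotient of the image of `dev` with the action `hol`
by translations: the image of `dev` is the preimage of `U`, `π` is equivariant, kills the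
translations of the holonomy, `ρ(Γ) \ U` is a closed affine orbifold with parallel volume, and
`ρ(Γ)` contains no translations. -/
structure IsTower (dev : X → E) (hol : Γ →* (E ≃ᵃ[ℝ] E)) (π : E →L[ℝ] Q) (ρ : Γ →* (Q ≃ᵃ[ℝ] Q))
    (U : Set Q) : Prop where
  surj : Function.Surjective π
  equi : ∀ γ p, π (hol γ p) = ρ γ (π p)
  image : U = π '' range dev
  preimage : range dev = π ⁻¹' U
  closed : IsClosedQuotient U ρ
  noTranslations : NoTranslations ρ
  kills : ∀ v ∈ translationSpan hol, π v = 0

end

/-- Let `M = Γ \ Ω` be a closed affine manifold with parallel volume which is a quotient of a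
connected open subset `Ω` of the affine space by a group `Γ` acting freely: it is given by a
connected cover `X` with its group `Γ`, holonomy `hol`, and injective developing map `dev`, with
image `Ω`.

Then there is a linear surjection `π : E → Q` such that `Ω = π ⁻¹ (U)` with `U = π(Ω)`, the
holonomy descends to a homomorphism `ρ` to the affine group of `Q`, `ρ(Γ) \ U` is again a closed
affine orbifold with parallel volume, `ρ(Γ)` contains no translations, and all translations of
the holonomy of `M` are in the directions of the kernel of `π`; moreover: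

* `M` is complete, `Γ` is virtually solvable and the `ℓ¹`-seminorm of all real homology classes of
  `M` of positive degree is zero (in particular the simplicial volume of `M` is zero) if the
  dimension of `Q` is at most two, or if `ρ(Γ)` is virtually solvable, or has a conformal flag, or
  is virtually trivial modulo a plane;
* if the dimension of `Q` is three, the same is true or the linear part of `ρ(Γ)` is strongly
  irreducible, faithful, discrete and no subgroup of finite index preserves a nonzero quadratic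
  form or a properly convex cone;
* if the dimension of `E` is three, the same is true or the linear part of the holonomy has these
  properties.

In particular the simplicial volume of `M` is zero if the translations of its holonomy span a
subspace of codimension at most two.

Joint work of helper67 and helper83. -/
theorem result (X Γ E : Type) [NormedAddCommGroup E] [NormedSpace ℝ E] [FiniteDimensional ℝ E]
    [TopologicalSpace X] [T2Space X] [SecondCountableTopology X] [ConnectedSpace X] [Group Γ]
    [MulAction Γ X] (dev : X → E) (hol : Γ →* (E ≃ᵃ[ℝ] E)) (D : AffData X Γ E dev hol)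
    (hfree : ∀ (γ : Γ) (x : X), γ • x = x → γ = 1) (hinj : Function.Injective dev) :
    ∃ (Q : Type) (_ : NormedAddCommGroup Q) (_ : NormedSpace ℝ Q) (_ : FiniteDimensional ℝ Q)
      (π : E →L[ℝ] Q) (ρ : Γ →* (Q ≃ᵃ[ℝ] Q)) (U : Set Q),
      IsTower dev hol π ρ U ∧
      (Module.finrank ℝ Q ≤ 2 ∨ VirtSolvable ρ.range ∨ HasConformalFlag (linPart ρ) ∨
        TrivialModPlane (linPart ρ) → SolvableAndVanishing X Γ E dev) ∧
      (Module.finrank ℝ Q = 3 → SolvableAndVanishing X Γ E dev ∨ Exceptional ρ) ∧
      (Module.finrank ℝ E = 3 → SolvableAndVanishing X Γ E dev ∨ Exceptional hol) ∧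
      (Module.finrank ℝ E ≤ Module.finrank ℝ (translationSpan hol) + 2 →
        SolvableAndVanishing X Γ E dev) := by
  have hhol : Function.Injective hol := by
    rw [injective_iff_map_eq_one]
    intro γ hγ
    obtain ⟨x⟩ := (inferInstance : Nonempty X)
    refine hfree γ x (hinj ?_)
    rw [D.equi, hγ]
    rfl
  obtain ⟨Q, i1, i2, i3, π, ρ, G, U, a1, a2, a3, a4, a5, ⟨act, D'⟩, a7, a8⟩ :=
    Pool.Agent.P8H67.TT.quoV_all _ X Γ E dev hol D hinj hhol le_rfl
  subst a3
  have hiff := Pool.Agent.P8H83.homeo_iff D hinj a1 a4 a5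
  have hconn : ConnectedSpace U := by
    have h1 : IsConnected U := by
      rw [a4]
      exact (isConnected_range D.loc.continuous).image _ π.continuous.continuousOn
    exact isConnected_iff_connectedSpace.1 h1
  have hup : IsHomeomorph (Subtype.val : U → Q) → IsHomeomorph dev := by
    intro h
    rw [hiff, ← Subtype.range_coe (s := U), h.surjective.range_eq]
  have hker : ∀ v ∈ translationSpan hol, π v = 0 := by
    have h1 : translationSpan hol ≤ LinearMap.ker (π : E →ₗ[ℝ] Q) := by
      unfold translationSpan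
      rw [Submodule.span_le]
      rintro v ⟨γ, hγ⟩
      show π v = 0
      have h2 : ∀ q, ρ γ q = q + π v := by
        intro q
        obtain ⟨p, rfl⟩ := a1 q
        rw [← a2, hγ, map_add]
      have h3 : ρ γ = 1 := by
        refine a7 _ ⟨γ, rfl⟩ (LinearEquiv.ext fun q => ?_)
        have h4 : (ρ γ).linear q = ρ γ q - ρ γ 0 := by
          have := hol_sub (hol := ρ) γ q 0
          rw [sub_zero] at this
          exact this.symm
        rw [h4, h2, h2]
        show q + π v - (0 + π v) = q
        abel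
      have h4 := h2 0
      rw [h3, zero_add] at h4
      exact h4.symm
    exact fun v hv => h1 hv
  -- solvable subgroups of the quotient
  have hsub : ∀ H : Subgroup ρ.range, Group.IsSolvable (H.map ρ.range.subtype) →
      Group.IsSolvable H := by
    intro H hs
    have e : H ≃* H.map ρ.range.subtype := H.equivMapOfInjective _ Subtype.val_injective
    exact Group.isSolvable_of_isSolvable_injective (f := e.toMonoidHom) e.injective
  -- the criterion
  have hcrit : VirtSolvable ρ.range → IsHomeomorph dev → SolvableAndVanishing X Γ E dev := by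
    intro hv hdev
    obtain ⟨B, hB, hBs⟩ := a8 hv
    have h1 : ∃ H' : Subgroup Γ, H'.FiniteIndex ∧ Group.IsSolvable (H'.map hol) := by
      refine ⟨B, hB, ?_⟩
      have e : B ≃* B.map hol := B.equivMapOfInjective _ hhol
      exact Group.isSolvable_of_isSolvable_injective (f := e.symm.toMonoidHom) e.symm.injective
    have h2 := Pool.Agent.N520.SV.solv_zero X Γ E dev hol D hfree hdev h1
    exact ⟨hdev, h2.1, h2.2⟩
  have hcrit' : (IsHomeomorph (Subtype.val : U → Q) ∧ ∃ H' : Subgroup ρ.range, H'.FiniteIndex ∧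
      Group.IsSolvable (H'.map ρ.range.subtype)) → SolvableAndVanishing X Γ E dev := by
    rintro ⟨h, H', hH', hs⟩
    exact hcrit ⟨H', hH', hsub H' hs⟩ (hup h)
  have hlow : Module.finrank ℝ Q ≤ 2 → SolvableAndVanishing X Γ E dev := fun h2 =>
    hcrit' ⟨Pool.Agent.P8H83.low_dim D' Subtype.val_injective h2,
      Pool.Agent.P8H67.TT.low_solv D' Subtype.val_injective h2⟩
  have hlin : (∃ H : Subgroup ρ.range, H.FiniteIndex ∧
      Group.IsSolvable (H.map (AffineEquiv.linearHom.comp ρ.range.subtype))) →
      SolvableAndVanishing X Γ E dev := by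
    rintro ⟨H, hH, hs⟩
    exact hcrit' ⟨Pool.Agent.Y449.MS.Wrap.main Pool.Agent.Y449.MS.All.finv U ρ.range Q Subtype.val
      ρ.range.subtype D' Subtype.val_injective H hH hs, H, hH,
      Pool.Agent.P8H83.solv_of_lin ρ.range.subtype H hs⟩
  -- subgroups of finite index of the image
  have hfin : ∀ H : Subgroup Γ, H.FiniteIndex → (H.map ρ.rangeRestrict).FiniteIndex := by
    intro H hH
    refine ⟨fun h0 => hH.index_ne_zero ?_⟩
    have := Subgroup.index_map_dvd (H := H) (ρ.rangeRestrict_surjective)
    rw [h0] at this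
    exact Nat.eq_zero_of_zero_dvd this
  have hplane : (∃ H : Subgroup ρ.range, H.FiniteIndex ∧ ∃ W : Submodule ℝ Q,
      Module.finrank ℝ W = 2 ∧ ∀ g ∈ H, ∀ v : Q, (ρ.range.subtype g).linear v - v ∈ W) →
      SolvableAndVanishing X Γ E dev := by
    rintro ⟨H, hH, W, hW2, hW⟩
    exact hcrit' (Pool.Agent.P8H67.TT.plane_vs D' Subtype.val_injective H hH W hW2 hW)
  have hnt : NoTranslations ρ := fun γ hγ => a7 _ ⟨γ, rfl⟩ (LinearEquiv.ext fun v => hγ v)
  have hlinE : (∃ H : Subgroup Γ, H.FiniteIndex ∧ Group.IsSolvable (H.map hol)) →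
      IsHomeomorph dev → SolvableAndVanishing X Γ E dev := by
    intro h1 hdev
    have h2 := Pool.Agent.N520.SV.solv_zero X Γ E dev hol D hfree hdev h1
    exact ⟨hdev, h2.1, h2.2⟩
  refine ⟨Q, i1, i2, i3, π, ρ, U, ⟨a1, a2, a4, ?_, ⟨act, D'⟩, hnt, hker⟩, ?_, fun h3 => ?_,
    fun h3 => ?_, fun h2 => hlow ?_⟩
  · ext p
    constructor
    · intro hp
      show π p ∈ U
      rw [a4]
      exact mem_image_of_mem _ hp
    · exact a5 p
  · rintro (h | ⟨H, hH, hs⟩ | ⟨H, hH, S, m, b1, b2, b3, b4, C, hC⟩ | ⟨H, hH, W, hW2, hW⟩)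
    · exact hlow h
    · refine hlin ⟨H, hH, ?_⟩
      have h1 : Function.Surjective
          ((AffineEquiv.linearHom.comp ρ.range.subtype).subgroupMap H) :=
        MonoidHom.subgroupMap_surjective _ _
      exact Group.isSolvable_of_surjective h1
    · refine hcrit' (Pool.Agent.N520.RO.quasi U ρ.range Q Subtype.val ρ.range.subtype D'
        Subtype.val_injective (H.map ρ.rangeRestrict) (hfin H hH) S m ⟨b1, b2, b3, ?_, C, ?_⟩)
      · rintro i hi _ ⟨γ, hγ, rfl⟩ v hv
        exact b4 i hi γ hγ v hv
      · rintro i hi _ ⟨γ, hγ, rfl⟩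
        obtain ⟨c, hc, hcv⟩ := hC i hi γ hγ
        refine ⟨c, hc, fun v hv => ⟨(hcv v hv).1, ?_⟩⟩
        have h1 : ρ.range.subtype (ρ.rangeRestrict γ)⁻¹ = ρ γ⁻¹ := by
          rw [map_inv, map_inv]
          rfl
        rw [h1]
        exact (hcv v hv).2
    · refine hplane ⟨H.map ρ.rangeRestrict, hfin H hH, W, hW2, ?_⟩
      rintro _ ⟨γ, hγ, rfl⟩ v
      exact hW γ hγ v
  · by_cases hirr : Pool.Agent.P8H83.SIrr (Pool.Agent.P8H83.lh ρ.range.subtype)
    · right
      have h2 : 2 ≤ Module.finrank ℝ Q := by omega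
      refine ⟨fun H hH W hW => hirr (H.map ρ.rangeRestrict) (hfin H hH) W ?_, ?_, ?_, ?_⟩
      · rintro _ ⟨γ, hγ, rfl⟩ v hv
        exact hW γ hγ v hv
      · obtain ⟨ε, hε, h⟩ := Pool.Agent.P8H83.disc_irr D' Subtype.val_injective h2 hirr
        refine ⟨ε / 2, by positivity, fun γ hγ => ?_⟩
        have h1 := h (ρ.rangeRestrict γ) (lt_of_le_of_lt (ContinuousLinearMap.opNorm_le_bound _
          (by positivity) hγ) (by linarith))
        exact h1
      · intro H hH q hq
        by_contra hne
        refine Pool.Agent.P8H83.no_form (Pool.Agent.Y449.MK.restrict D' (H.map ρ.rangeRestrict)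
          (hfin H hH)) Subtype.val_injective h3 (hirr.sub (H.map ρ.rangeRestrict) (hfin H hH)) q
          hne ?_
        rintro ⟨_, γ, hγ, rfl⟩ v
        exact hq γ hγ v
      · intro H hH C hC hinv
        refine Pool.Agent.P8H83.no_cone (Pool.Agent.Y449.MK.restrict D' (H.map ρ.rangeRestrict)
          (hfin H hH)) Subtype.val_injective h2 (hirr.sub (H.map ρ.rangeRestrict) (hfin H hH))
          hC.isOpen hC.convex hC.nonempty hC.cone hC.no_line ?_
        rintro ⟨_, γ, hγ, rfl⟩ c hc
        exact hinv γ hγ c hc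
    · left
      rcases Pool.Agent.P8H83.out_red D' Subtype.val_injective h3 hirr with
        ⟨H, hH, W, hW2, hW⟩ | ⟨H, hH, hs⟩
      · exact hplane ⟨H, hH, W, hW2, hW⟩
      · exact hlin ⟨H, hH, hs⟩
  · by_cases hirr : Pool.Agent.P8H83.SIrr (Pool.Agent.P8H83.lh hol)
    · right
      have h2 : 2 ≤ Module.finrank ℝ E := by omega
      refine ⟨fun H hH W hW => hirr H hH W hW, ?_, ?_, ?_⟩
      · obtain ⟨ε, hε, h⟩ := Pool.Agent.P8H83.disc_irr D hinj h2 hirr
        refine ⟨ε / 2, by positivity, fun γ hγ => h γ ?_⟩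
        refine lt_of_le_of_lt (ContinuousLinearMap.opNorm_le_bound _ (by positivity) hγ) ?_
        linarith
      · intro H hH q hq
        by_contra hne
        exact Pool.Agent.P8H83.no_form (Pool.Agent.Y449.MK.restrict D H hH) hinj h3
          (hirr.sub H hH) q hne fun γ v => hq γ γ.2 v
      · intro H hH C hC hinv
        exact Pool.Agent.P8H83.no_cone (Pool.Agent.Y449.MK.restrict D H hH) hinj h2
          (hirr.sub H hH) hC.isOpen hC.convex hC.nonempty hC.cone hC.no_line
          fun γ c hc => hinv γ γ.2 c hc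
    · left
      rcases Pool.Agent.P8H83.out_red D hinj h3 hirr with ⟨H, hH, W, hW2, hW⟩ | ⟨H, hH, hs⟩
      · have h4 := Pool.Agent.P8H67.TT.plane_vs D hinj H hH W hW2 hW
        exact hlinE h4.2 h4.1
      · exact hlinE ⟨H, hH, Pool.Agent.P8H83.solv_of_lin hol H hs⟩
          (Pool.Agent.Y449.MS.Wrap.main Pool.Agent.Y449.MS.All.finv X Γ E dev hol D hinj H hH hs)
  · have h3 := LinearMap.finrank_range_add_finrank_ker (π : E →ₗ[ℝ] Q)
    have h4 : Module.finrank ℝ (LinearMap.range (π : E →ₗ[ℝ] Q)) = Module.finrank ℝ Q := by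
      rw [LinearMap.range_eq_top.2 a1, finrank_top]
    have h5 : Module.finrank ℝ (translationSpan hol) ≤
        Module.finrank ℝ (LinearMap.ker (π : E →ₗ[ℝ] Q)) :=
      Submodule.finrank_mono fun v hv => hker v hv
    omega

end Pool.Agent.Results.MP_f22a19_gt.TranslationTower
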