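import Pool.Agent.P8H67.TD.Fin
import Pool.Agent.P8H42.TD.Sub
import Pool.Agent.P8H44.TD.Dj
import Pool.Agent.P8H45.TD.Dual
import Pool.Agent.P8H45.TD.Gmv
import Pool.Agent.P8H5.TD.Flat
import Pool.Agent.P8H54.TD.Chart
import Pool.Agent.P8H54.TD.Gind
import Pool.Agent.P8H55.TD.Acy
import Pool.Agent.P8H66.TD.Gloc
import Pool.Agent.P8H70.TD.Field
import Pool.Agent.P8H70.TD.Im
import Pool.Agent.P8H80.TD.Pmean
import Pool.Agent.P8H80.TD.Pri
import Pool.Agent.P8H80.TD.Str
import Pool.Agent.P8H84.TD.Slab
import Pool.Agent.P8H93.TD.Avg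
import Pool.Agent.P8H93.TD.Pi
import Pool.Agent.P8H37.TD.Cpt
import Pool.Agent.P8H37.TD.Lin

set_option autoImplicit false

open Set
open Pool.Agent.P8H67.TD (AffD)

namespace Pool.Agent.Results.MP_f22a19_gt.TranslationVanishing

/-- the standard simplex of dimension `k` -/
abbrev Simplex (k : ℕ) : Type := stdSimplex ℝ (Fin (k + 1))

/-- real singular chains of degree `k` of the space `M` -/
abbrev Chain (k : ℕ) (M : Type) [TopologicalSpace M] : Type := C(Simplex k, M) →₀ ℝ

/-- the inclusion of the face opposite to the vertex `i` -/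
noncomputable def face {k : ℕ} (i : Fin (k + 2)) : C(Simplex k, Simplex (k + 1)) :=
  ⟨stdSimplex.map i.succAbove, stdSimplex.continuous_map _⟩

/-- the boundary of singular chains -/
noncomputable def bdry {M : Type} [TopologicalSpace M] (k : ℕ) : Chain (k + 1) M →ₗ[ℝ] Chain k M :=
  Finsupp.linearCombination ℝ fun σ =>
    ∑ i : Fin (k + 2), ((-1 : ℝ) ^ (i : ℕ)) • Finsupp.single (σ.comp (face i)) 1

/-- the `ℓ¹`-norm of a singular chain: the sum of the absolute values of its coefficients -/
noncomputable def norm1 {M : Type} [TopologicalSpace M] {k : ℕ} (c : Chain k M) : ℝ :=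
  ∑ σ ∈ c.support, |c σ|

/-- The `ℓ¹`-seminorm of the homology class of a cycle `z`: the infimum of the norms of the
homologous cycles. For a fundamental cycle of a closed oriented manifold this is the simplicial
volume. -/
noncomputable def seminorm1 {k : ℕ} {M : Type} [TopologicalSpace M] (z : Chain (k + 1) M) : ℝ :=
  ⨅ c : Chain (k + 2) M, norm1 (z + bdry (k + 1) c)

/-- The `ℓ¹`-seminorm of all real homology classes of `M = Γ \ X` of degree larger than `m` is
zero. -/
def VanishingAbove (X Γ : Type) [TopologicalSpace X] [Group Γ] [MulAction Γ X] (m : ℕ) : Prop :=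
  ∀ k : ℕ, m ≤ k → ∀ z : Chain (k + 1) (MulAction.orbitRel.Quotient Γ X), bdry k z = 0 →
    seminorm1 z = 0

/-- The span of the vectors of the translations in the holonomy. -/
def translationSpan {Γ E : Type} [Group Γ] [NormedAddCommGroup E] [NormedSpace ℝ E]
    (hol : Γ →* (E ≃ᵃ[ℝ] E)) : Submodule ℝ E :=
  Submodule.span ℝ {v | ∃ γ, ∀ p, hol γ p = p + v}

section
variable {Γ Q : Type} [Group Γ] [NormedAddCommGroup Q] [NormedSpace ℝ Q]

/-- The group `ρ(Γ)` of affine maps preserves the open set `U`, and `ρ(Γ) \ U` is a closed affine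
manifold (or orbifold), with holonomy group `ρ(Γ)` and developing map the inclusion of `U`. -/
def IsClosedQuotient (U : Set Q) (ρ : Γ →* (Q ≃ᵃ[ℝ] Q)) : Prop :=
  ∃ _ : MulAction ρ.range U, AffD U ρ.range Q Subtype.val ρ.range.subtype

/-- `ρ(Γ)` contains no translation but the identity. -/
def NoTranslations (ρ : Γ →* (Q ≃ᵃ[ℝ] Q)) : Prop :=
  ∀ γ, (∀ v, (ρ γ).linear v = v) → ρ γ = 1

variable {X E : Type} [NormedAddCommGroup E] [NormedSpace ℝ E]

/-- The surjection `π` exhibits `(U, ρ)` as a quotient of the image of `dev` with the action `hol`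
by translations: the image of `dev` is the preimage of `U`, `π` is equivariant, kills the
translations of the holonomy, `ρ(Γ) \ U` is a closed affine orbifold, and `ρ(Γ)` contains no
translations. -/
structure IsTower (dev : X → E) (hol : Γ →* (E ≃ᵃ[ℝ] E)) (π : E →L[ℝ] Q) (ρ : Γ →* (Q ≃ᵃ[ℝ] Q))
    (U : Set Q) : Prop where
  surj : Function.Surjective π
  equi : ∀ γ p, π (hol γ p) = ρ γ (π p)
  image : U = π '' range dev
  preimage : range dev = π ⁻¹' U
  closed : IsClosedQuotient U ρ
  noTranslations : NoTranslations ρ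
  kills : ∀ v ∈ translationSpan hol, π v = 0

end

open Pool.Agent.P8H67.TD in
/-- Let `M = Γ \ Ω` be a closed affine manifold (no condition on the volume, `M` is not assumed to
be aspherical) which is a quotient of an open subset `Ω` of the affine space `E` by a group `Γ`
acting freely: it is given by a cover `X` with its group `Γ`, holonomy `hol`, and injective
developing map `dev`, with image `Ω`.

Then there is a linear surjection `π : E → Q` such that `Ω = π ⁻¹ (U)` with `U = π(Ω)`, the
holonomy descends to a homomorphism `ρ` to the affine group of `Q`, `ρ(Γ) \ U` is again a closed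
affine orbifold, `ρ(Γ)` contains no translations, all translations of the holonomy of `M` are in
the directions of the kernel of `π`, and the `ℓ¹`-seminorm of all real homology classes of `M` of
degree larger than the dimension of `Q` is zero.

In particular all homology classes of degree larger than the codimension of the span of the
translations of the holonomy have seminorm zero, and the simplicial volume of `M` is zero if the
holonomy contains a translation by a nonzero vector. -/
theorem result (X Γ E : Type) [NormedAddCommGroup E] [NormedSpace ℝ E] [FiniteDimensional ℝ E]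
    [TopologicalSpace X] [T2Space X] [Nonempty X] [Group Γ] [MulAction Γ X] (dev : X → E)
    (hol : Γ →* (E ≃ᵃ[ℝ] E)) (D : AffD X Γ E dev hol)
    (hfree : ∀ (γ : Γ) (x : X), γ • x = x → γ = 1) (hinj : Function.Injective dev) :
    (∃ (Q : Type) (_ : NormedAddCommGroup Q) (_ : NormedSpace ℝ Q) (_ : FiniteDimensional ℝ Q)
      (π : E →L[ℝ] Q) (ρ : Γ →* (Q ≃ᵃ[ℝ] Q)) (U : Set Q),
      IsTower dev hol π ρ U ∧ VanishingAbove X Γ (Module.finrank ℝ Q)) ∧
    VanishingAbove X Γ (Module.finrank ℝ E - Module.finrank ℝ (translationSpan hol)) ∧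
    ((∃ (γ : Γ) (v : E), v ≠ 0 ∧ ∀ p, hol γ p = p + v) →
      VanishingAbove X Γ (Module.finrank ℝ E - 1)) := by
  have hhol : Function.Injective hol := by
    rw [injective_iff_map_eq_one]
    intro γ hγ
    obtain ⟨x⟩ := (inferInstance : Nonempty X)
    refine hfree γ x (hinj ?_)
    rw [D.equi, hγ]
    rfl
  obtain ⟨Q, i1, i2, i3, π, ρ, G, U, a1, a2, a3, a4, a5, a6, a7, a9⟩ :=
    quoS_all _ X Γ E dev hol D hinj hhol le_rfl
  subst a3
  have hSUB := Pool.Agent.P8H42.TD.sub
  have hGI : GI := Pool.Agent.P8H54.TD.gind hSUB Pool.Agent.P8H45.TD.gmv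
    Pool.Agent.P8H66.TD.gloc Pool.Agent.P8H54.TD.chart
  have hRED : S_RED := Pool.Agent.P8H93.TD.avg Pool.Agent.P8H80.TD.str Pool.Agent.P8H80.TD.pri
    Pool.Agent.P8H70.TD.field Pool.Agent.P8H70.TD.im
  have hQH : QHC := Pool.Agent.P8H55.TD.qh (Pool.Agent.P8H55.TD.acy Pool.Agent.P8H93.TD.pi
    Pool.Agent.P8H44.TD.dj Pool.Agent.P8H44.TD.mvs Pool.Agent.P8H84.TD.slb
    Pool.Agent.P8H37.TD.cpt Pool.Agent.P8H37.TD.lin) Pool.Agent.P8H5.TD.flat
  have hmain : VanishingAbove X Γ (Module.finrank ℝ Q) := fun k hk z hz =>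
    vanish Pool.Agent.P8H80.TD.pmean hRED hGI Pool.Agent.P8H45.TD.dual hQH X Γ E Q dev hol D hfree
      hinj π ρ U a1 a2 a4 a5 a6 a9 k hk z hz
  have hker : translationSpan hol ≤ LinearMap.ker (π : E →ₗ[ℝ] Q) := by
    unfold translationSpan
    rw [Submodule.span_le]
    rintro v ⟨γ, hγ⟩
    show π v = 0
    have h2 : ∀ q, ρ γ q = q + π v := by
      intro q
      obtain ⟨p, rfl⟩ := a1 q
      rw [← a2, hγ, map_add]
    have h3 : ρ γ = 1 := by
      refine a7 _ ⟨γ, rfl⟩ (LinearEquiv.ext fun q => ?_)
      have h4 : (ρ γ).linear q = ρ γ q - ρ γ 0 := by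
        have := Pool.Agent.W689.Mk.hol_sub (hol := ρ) γ q 0
        rw [sub_zero] at this
        exact this.symm
      rw [h4, h2, h2]
      show q + π v - (0 + π v) = q
      abel
    have h4 := h2 0
    rw [h3, zero_add] at h4
    exact h4.symm
  have hdim : Module.finrank ℝ (translationSpan hol) + Module.finrank ℝ Q ≤
      Module.finrank ℝ E := by
    have h1 := Submodule.finrank_mono hker
    have h2 := LinearMap.finrank_range_add_finrank_ker (π : E →ₗ[ℝ] Q)
    rw [LinearMap.range_eq_top.2 a1, finrank_top] at h2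
    omega
  refine ⟨⟨Q, i1, i2, i3, π, ρ, U, ⟨a1, a2, a4, ?_, a6,
    fun γ hγ => a7 _ ⟨γ, rfl⟩ (LinearEquiv.ext fun v => hγ v), fun v hv => hker hv⟩, hmain⟩,
    fun k hk => hmain k (by omega), ?_⟩
  · ext p
    constructor
    · intro hp
      show π p ∈ U
      rw [a4]
      exact mem_image_of_mem _ hp
    · exact a5 p
  · rintro ⟨γ, v, hv, hγ⟩ k hk
    refine hmain k ?_
    have h1 : 0 < Module.finrank ℝ (translationSpan hol) := by
      rw [Module.finrank_pos_iff_exists_ne_zero]
      refine ⟨⟨v, Submodule.subset_span ⟨γ, hγ⟩⟩, fun h => hv ?_⟩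
      exact congrArg Subtype.val h
    omega

end Pool.Agent.Results.MP_f22a19_gt.TranslationVanishing
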